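import Mathlib

set_option autoImplicit false

namespace Pool.Agent.Results.MP_4101c8_co.Complement

/-- The total domination number: the least size of a set `S` such that every vertex has a
neighbour in `S`. -/
noncomputable def gammaT {V : Type} (G : SimpleGraph V) : ℕ :=
  sInf {k : ℕ | ∃ S : Finset V, S.card = k ∧ ∀ v : V, ∃ u ∈ S, G.Adj v u}

def A : List ℕ := [5888, 11776, 7296, 14592, 12928, 9600, 2944, 116, 105, 83, 39, 78, 29, 58]
def had (a b : Fin 14) : Bool := (A.getD a.val 0).testBit b.val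
def n1 : Fin 14 → Fin 14 := ![8, 9, 7, 8, 7, 7, 7, 2, 0, 0, 0, 1, 0, 1]
def n2 : Fin 14 → Fin 14 := ![9, 10, 10, 11, 9, 8, 8, 4, 3, 1, 1, 2, 2, 3]
def n3 : Fin 14 → Fin 14 := ![10, 11, 11, 12, 12, 10, 9, 5, 5, 4, 2, 3, 3, 4]
def n4 : Fin 14 → Fin 14 := ![12, 13, 12, 13, 13, 13, 11, 6, 6, 6, 5, 6, 4, 5]

theorem had_symm : ∀ a b, had a b = true → had b a = true := by decide +kernel
theorem had_irr : ∀ a, ¬ had a a = true := by decide +kernel
theorem had_n : ∀ a b, had a b = true → b = n1 a ∨ b = n2 a ∨ b = n3 a ∨ b = n4 a := by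
  decide +kernel
theorem had_1 : ∀ a, had a (n1 a) = true := by decide +kernel
theorem had_c : ∀ a, (Finset.univ.filter fun b => had a b = true).card = 4 := by decide +kernel

theorem loc : ∀ s0 s1 s2 s3 s4 s5 s6 s7 s8 s9 s10 s11 s12 s13 : Bool,
    (s8 || s9 || s10 || s12) = true → (s9 || s10 || s11 || s13) = true → (s7 || s10 || s11 || s12) = true → (s8 || s11 || s12 || s13) = true → (s7 || s9 || s12 || s13) = true → (s7 || s8 || s10 || s13) = true → (s7 || s8 || s9 || s11) = true → (s2 || s4 || s5 || s6) = true → (s0 || s3 || s5 || s6) = true → (s0 || s1 || s4 || s6) = true → (s0 || s1 || s2 || s5) = true → (s1 || s2 || s3 || s6) = true → (s0 || s2 || s3 || s4) = true → (s1 || s3 || s4 || s5) = true →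
    6 ≤ s0.toNat + s1.toNat + s2.toNat + s3.toNat + s4.toNat + s5.toNat + s6.toNat + s7.toNat + s8.toNat + s9.toNat + s10.toNat + s11.toNat + s12.toNat + s13.toNat := by
  decide +kernel

def H (r : ℕ) : SimpleGraph (Fin r × Fin 14) where
  Adj p q := p.1 = q.1 ∧ had p.2 q.2 = true
  symm := ⟨fun _ _ h => ⟨h.1.symm, had_symm _ _ h.2⟩⟩
  loopless := ⟨fun _ h => had_irr _ h.2⟩

theorem lower (r : ℕ) : 6 * r ≤ gammaT (H r) := by
  classical
  have ne : {k : ℕ | ∃ S : Finset (Fin r × Fin 14), S.card = k ∧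
      ∀ v, ∃ u ∈ S, (H r).Adj v u}.Nonempty :=
    ⟨_, Finset.univ, rfl, fun v => ⟨(v.1, n1 v.2), Finset.mem_univ _, rfl, had_1 _⟩⟩
  obtain ⟨S, hS, hd⟩ := Nat.sInf_mem ne
  unfold gammaT
  rw [← hS]
  let c : Fin r → ℕ := fun i => ∑ a : Fin 14, (decide ((i, a) ∈ S)).toNat
  have hsum : S.card = ∑ i, c i := by
    have : S.card = ∑ v : Fin r × Fin 14, (decide (v ∈ S)).toNat := by
      rw [Finset.card_eq_sum_ite (Finset.subset_univ S)]
      exact Finset.sum_congr rfl fun v _ => by by_cases h : v ∈ S <;> simp [h]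
    rw [this, Fintype.sum_prod_type]
  have hloc : ∀ i, 6 ≤ c i := by
    intro i
    have hh : ∀ a : Fin 14, (decide ((i, n1 a) ∈ S) || decide ((i, n2 a) ∈ S) ||
        decide ((i, n3 a) ∈ S) || decide ((i, n4 a) ∈ S)) = true := by
      intro a
      obtain ⟨⟨j, b⟩, hu, h1, h2⟩ := hd (i, a)
      obtain rfl : i = j := h1
      rcases had_n a b h2 with rfl | rfl | rfl | rfl <;> simp [hu]
    have := loc (decide ((i, 0) ∈ S)) (decide ((i, 1) ∈ S)) (decide ((i, 2) ∈ S)) (decide ((i, 3) ∈ S)) (decide ((i, 4) ∈ S)) (decide ((i, 5) ∈ S)) (decide ((i, 6) ∈ S)) (decide ((i, 7) ∈ S)) (decide ((i, 8) ∈ S)) (decide ((i, 9) ∈ S)) (decide ((i, 10) ∈ S)) (decide ((i, 11) ∈ S)) (decide ((i, 12) ∈ S)) (decide ((i, 13) ∈ S))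
      (hh 0) (hh 1) (hh 2) (hh 3) (hh 4) (hh 5) (hh 6) (hh 7) (hh 8) (hh 9) (hh 10) (hh 11) (hh 12) (hh 13)
    have hce : c i = (decide ((i, 0) ∈ S)).toNat + (decide ((i, 1) ∈ S)).toNat + (decide ((i, 2) ∈ S)).toNat + (decide ((i, 3) ∈ S)).toNat + (decide ((i, 4) ∈ S)).toNat + (decide ((i, 5) ∈ S)).toNat + (decide ((i, 6) ∈ S)).toNat + (decide ((i, 7) ∈ S)).toNat + (decide ((i, 8) ∈ S)).toNat + (decide ((i, 9) ∈ S)).toNat + (decide ((i, 10) ∈ S)).toNat + (decide ((i, 11) ∈ S)).toNat + (decide ((i, 12) ∈ S)).toNat + (decide ((i, 13) ∈ S)).toNat := by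
      simp only [c, Fin.sum_univ_succ, Fin.sum_univ_zero, ← add_assoc, add_zero]
      rfl
    rw [hce]
    exact this
  have : ∑ _i : Fin r, 6 ≤ ∑ i, c i := Finset.sum_le_sum fun i _ => hloc i
  rw [hsum]
  simpa [mul_comm] using this

theorem other (r : ℕ) (i : Fin (r + 2)) : ∃ j : Fin (r + 2), i ≠ j := by
  by_cases h : i = 0
  · exact ⟨1, by simp [h]⟩
  · exact ⟨0, h⟩

theorem cadj (r : ℕ) (p q : Fin r × Fin 14) (h : p.1 ≠ q.1) : (H r)ᶜ.Adj p q :=
  ⟨fun e => h (by rw [e]), fun e => h e.1⟩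

theorem lower2 (r : ℕ) : 2 ≤ gammaT (H (r + 2))ᶜ := by
  classical
  have ne : {k : ℕ | ∃ S : Finset (Fin (r + 2) × Fin 14), S.card = k ∧
      ∀ v, ∃ u ∈ S, (H (r + 2))ᶜ.Adj v u}.Nonempty := by
    refine ⟨_, Finset.univ, rfl, fun v => ?_⟩
    obtain ⟨j, hj⟩ := other r v.1
    exact ⟨(j, 0), Finset.mem_univ _, cadj _ _ _ hj⟩
  obtain ⟨S, hS, hd⟩ := Nat.sInf_mem ne
  unfold gammaT
  rw [← hS]
  obtain ⟨u, hu, -⟩ := hd (0, 0)
  obtain ⟨w, hw, h⟩ := hd u
  exact Finset.one_lt_card.mpr ⟨u, hu, w, hw, h.ne⟩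

theorem conn (r : ℕ) : (H (r + 2))ᶜ.Connected := by
  refine ⟨fun p q => ?_⟩
  by_cases h : p.1 = q.1
  · obtain ⟨j, hj⟩ := other r p.1
    exact (cadj _ p (j, 0) hj).reachable.trans (cadj _ (j, 0) q (h ▸ hj.symm)).reachable
  · exact (cadj _ p q h).reachable

open Classical in
theorem deg (r : ℕ) (v : Fin r × Fin 14) : (H r).degree v = 4 := by
  rw [← SimpleGraph.card_neighborFinset_eq_degree, ← had_c v.2]
  refine (Finset.card_bij (fun b _ => (v.1, b)) ?_ ?_ ?_).symm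
  · intro b hb
    simp only [Finset.mem_filter] at hb
    exact (SimpleGraph.mem_neighborFinset _ _ _).mpr ⟨rfl, hb.2⟩
  · intro a _ b _ h
    simpa using h
  · rintro ⟨j, b⟩ hb
    obtain ⟨h1, h2⟩ := (SimpleGraph.mem_neighborFinset _ _ _).mp hb
    exact ⟨b, by simpa using h2, by simpa using h1⟩

theorem dn {V : Type} (G : SimpleGraph V) (v : V) [Fintype (G.neighborSet v)] :
    G.degree v = (G.neighborSet v).ncard := by
  rw [← SimpleGraph.card_neighborSet_eq_degree, ← Nat.card_eq_fintype_card, Nat.card_coe_set_eq]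

theorem mind {V : Type} [Fintype V] [Nonempty V] (G K : SimpleGraph V) [DecidableRel G.Adj]
    [DecidableRel K.Adj] (h1 : ∀ v, 4 ≤ (G.neighborSet v).ncard)
    (h2 : ∀ v, (K.neighborSet v).ncard = 4) : min G.minDegree K.minDegree = 4 := by
  obtain ⟨v, hv⟩ := SimpleGraph.exists_minimal_degree_vertex G
  obtain ⟨w, hw⟩ := SimpleGraph.exists_minimal_degree_vertex K
  rw [dn] at hv hw
  have := h1 v
  have := h2 w
  omega

open Classical in
/-- For arbitrarily large orders `n` there is a connected graph `G` with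
`min (δ G) (δ Gᶜ) = 4`, `γ_t(G) + γ_t(Gᶜ) > 2n/5 + 2` and `γ_t(G) γ_t(Gᶜ) > 4n/5`. -/
theorem result (N : ℕ) :
    ∃ (V : Type) (_ : Fintype V) (G : SimpleGraph V),
      N ≤ Fintype.card V ∧ G.Connected ∧ min G.minDegree Gᶜ.minDegree = 4 ∧
      2 * Fintype.card V + 10 < 5 * (gammaT G + gammaT Gᶜ) ∧
      4 * Fintype.card V < 5 * (gammaT G * gammaT Gᶜ) := by
  have hc : Fintype.card (Fin (N + 2) × Fin 14) = 14 * (N + 2) := by simp [mul_comm]
  refine ⟨Fin (N + 2) × Fin 14, inferInstance, (H (N + 2))ᶜ, by omega, conn N, ?_, ?_, ?_⟩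
  · refine @mind _ _ _ _ _ (_) (_) (fun v => ?_) (fun v => ?_)
    · obtain ⟨j, hj⟩ := other N v.1
      have h : (Set.univ : Set (Fin 14)).ncard ≤ ((H (N + 2))ᶜ.neighborSet v).ncard :=
        Set.ncard_le_ncard_of_injOn (fun b => (j, b)) (fun b _ => cadj _ v (j, b) hj)
          (fun a _ b _ h => by simpa using h) (Set.toFinite _)
      rw [Set.ncard_univ, Nat.card_eq_fintype_card, Fintype.card_fin] at h
      omega
    · rw [compl_compl, ← dn, deg]
  · have h1 := lower (N + 2)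
    have h2 := lower2 N
    rw [compl_compl]
    omega
  · have h1 := lower (N + 2)
    have h2 := lower2 N
    rw [compl_compl]
    have := Nat.mul_le_mul h2 h1
    omega

end Pool.Agent.Results.MP_4101c8_co.Complement
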